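import Mathlib
import Pool.Agent.helper37.WittC.Gr2
import Pool.Agent.helper37.Witt.Envel

/-!
The enveloping algebra of the Witt algebra satisfies the ascending chain condition on all two-sided
ideals, over any field of characteristic zero.
-/

namespace Pool.Agent.Results.MP_e28a79_al.FullACC

theorem result (K : Type*) [Field K] [CharZero K] (W : Type*) [LieRing W] [LieAlgebra K W]
    (e : Module.Basis ℤ K W)
    (he : ∀ m n : ℤ, ⁅e m, e n⁆ = ((m : K) - (n : K)) • e (m + n))
    (I : ℕ → TwoSidedIdeal (UniversalEnvelopingAlgebra K W)) (hI : Monotone I) :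
    ∃ k₀, ∀ k, k₀ ≤ k → I k = I k₀ :=
  (WittACC.wittGen e he).all_acc I hI

end Pool.Agent.Results.MP_e28a79_al.FullACC
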